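import Mathlib
import Pool.Agent.Lib.MP_0c67ff_ag.U.Final

set_option autoImplicit false

/-!
MP_0c67ff_ag, Q1. Every convergent function with values at least two is the projective dimension
function of the powers of a monomial ideal; one finite set of monomials serves all fields.
-/

universe u

open CategoryTheory MvPolynomial

namespace Pool.Agent.Results.MP_0c67ff_ag.EveryConvergentFunction

/-- The ideal of `k[x_1, ..., x_n]` generated by the monomials with exponent vector in the finite
set `s`. -/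
noncomputable def monomialIdeal (k : Type u) [Field k] {n : ℕ} (s : Finset (Fin n →₀ ℕ)) :
    Ideal (MvPolynomial (Fin n) k) :=
  Ideal.span ((fun e => monomial e (1 : k)) '' (s : Set (Fin n →₀ ℕ)))

/-- Every set of exponent vectors contains a finite subset lying below all of its elements. -/
theorem exists_finset_below {n : ℕ} (W : Set (Fin n →₀ ℕ)) :
    ∃ s : Finset (Fin n →₀ ℕ), (s : Set (Fin n →₀ ℕ)) ⊆ W ∧ ∀ e ∈ W, ∃ a ∈ s, a ≤ e := by
  have hanti : IsAntichain (· ≤ ·) {e | Minimal (· ∈ W) e} := by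
    intro a ha b hb hab hle
    exact hab (le_antisymm hle (hb.2 ha.1 hle))
  have hfin : {e | Minimal (· ∈ W) e}.Finite :=
    WellQuasiOrderedLE.finite_of_isAntichain hanti
  refine ⟨hfin.toFinset, ?_, ?_⟩
  · intro e he
    have : e ∈ {e | Minimal (· ∈ W) e} := by simpa using he
    exact this.1
  · intro e he
    obtain ⟨a, hae, ha⟩ := exists_minimal_le_of_wellFoundedLT (fun x => x ∈ W) e he
    exact ⟨a, by simpa using ha, hae⟩

/-- Let `g` be an eventually constant function with `g t ≥ 2` for all `t ≥ 1`. There are a number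
`n` of variables and a finite set `s` of exponent vectors such that over every field `k` the ideal
`Q` of `k[x_1, ..., x_n]` generated by the monomials with exponents in `s` satisfies
`pd Q^t = g t` for all `t ≥ 1`. -/
theorem result (g : ℕ → ℤ) (hg : ∃ (t₀ : ℕ) (L : ℤ), ∀ t ≥ t₀, g t = L)
    (h2 : ∀ t ≥ 1, 2 ≤ g t) :
    ∃ (n : ℕ) (s : Finset (Fin n →₀ ℕ)), ∀ (k : Type u) [Field k], ∀ t ≥ 1,
      ∃ d : ℕ, (d : ℤ) = g t ∧
        projectiveDimension
          (ModuleCat.of (MvPolynomial (Fin n) k) ↥(monomialIdeal k s ^ t)) = d := by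
  obtain ⟨N, c, hN⟩ := hg
  obtain ⟨ι, _, P, hPN, hP⟩ := Pool.Agent.Lib.MP_0c67ff_ag.U.exists_data N
    (fun n => (g (n + 1) - 1).toNat) (fun n _ => by
      have := h2 (n + 1) (by omega)
      omega)
  obtain ⟨n, ⟨V⟩⟩ := Pool.Agent.Lib.MP_0c67ff_ag.U.exists_setup ι
  obtain ⟨s, hsW, hsb⟩ := exists_finset_below (V.W P.A P.b (2 * P.D₁) 0)
  refine ⟨n, s, ?_⟩
  intro k _ t ht
  have hid : monomialIdeal k s =
      Pool.Agent.Lib.MP_0c67ff_ag.U.mI k (V.W P.A P.b (2 * P.D₁) 0) := by
    apply le_antisymm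
    · exact Ideal.span_mono (Set.image_mono hsW)
    · refine Ideal.span_le.2 ?_
      rintro _ ⟨e, he, rfl⟩
      obtain ⟨a, ha, hae⟩ := hsb e he
      have hmul : (monomial e (1 : k) : MvPolynomial (Fin n) k) =
          monomial (e - a) 1 * monomial a 1 := by
        rw [monomial_mul, mul_one, tsub_add_cancel_of_le hae]
      show monomial e (1 : k) ∈ monomialIdeal k s
      rw [hmul]
      exact Ideal.mul_mem_left _ _ (Ideal.subset_span ⟨a, ha, rfl⟩)
  obtain ⟨r, rfl⟩ : ∃ r, t = r + 1 := ⟨t - 1, by omega⟩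
  have hcard : (P.Lv (min r P.N)).card = (g (min r P.N + 1) - 1).toNat :=
    hP _ (by rw [hPN]; exact min_le_right _ _)
  have h3 : g (min r P.N + 1) = g (r + 1) := by
    rcases le_total r P.N with h | h
    · rw [min_eq_left h]
    · rw [min_eq_right h, hN (P.N + 1) (by omega), hN (r + 1) (by omega)]
  have h4 := h2 (r + 1) (by omega)
  have key : ∀ m : ℕ, HasProjectiveDimensionLT
      (ModuleCat.of (MvPolynomial (Fin n) k) ↥(monomialIdeal k s ^ (r + 1))) m ↔
      (P.Lv (min r P.N)).card + 2 ≤ m := by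
    intro m
    rw [hid]
    exact Pool.Agent.Lib.MP_0c67ff_ag.U.PD_pow V P k r m
  refine ⟨(P.Lv (min r P.N)).card + 1, ?_, ?_⟩
  · rw [hcard, h3]
    omega
  · apply le_antisymm
    · rw [projectiveDimension_le_iff]
      exact (key _).2 le_rfl
    · rw [projectiveDimension_ge_iff]
      intro h
      have := (key _).1 h
      omega

end Pool.Agent.Results.MP_0c67ff_ag.EveryConvergentFunction
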